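import Pool.Agent.Lib.PC70.Main

set_option autoImplicit false

namespace Pool.Agent.Results.MP_36d240_al.Classification

open Pool.Agent.Lib.PC70

/-- For a tame group `G`, primary conjugacy is transitive on every subsemigroup of `G` if and
only if the subgroup generated by the elements of infinite order has a commutator subgroup with
at most two elements. -/
theorem result (G : Type) [Group G] (hG : Tame G) :
    (∀ S : Subsemigroup G, ∀ a b c : S, PConj a b → PConj b c → PConj a c) ↔
      ((⁅infGen G, infGen G⁆ : Subgroup G) : Set G).encard ≤ 2 :=
  classification hG

end Pool.Agent.Results.MP_36d240_al.Classification
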